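import Pool.Agent.H72.Cert

/-!
# The pseudoeffective cone of the blow-up of `ℙⁿ` at `n + 4` points has a positive part, `n ≥ 6`

An effective divisor of class `dH - ∑ mᵢ Eᵢ` on the blow-up of `ℙⁿ` at points `pᵢ` is the same as
a nonzero form `F` of degree `d` in `n + 1` variables vanishing to order at least `mᵢ` at `pᵢ`.
For a form `F`, vanishing to order at least `m` at the point `p` means that `F` lies in the `m`-th
power of the (maximal) ideal of all polynomials vanishing at a vector representing `p`.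

The class is `D = 14 H - 9 E₁ - 10 (E₂ + ... + E₁₀) - 14 (E₁₁ + ... + Eₙ₊₄)`, with `D · F = -1`
for the anticanonical curve class `F = (n + 1) h - ∑ eᵢ`.
-/

set_option autoImplicit false

open Pool.Agent.H72

namespace Pool.Agent.Results.MP_71de02_ag.PositivePart

lemma sum_mult (n : ℕ) (hn : 6 ≤ n) :
    ∑ i : Fin (n + 4), (if (i : ℕ) = 0 then 9 else if (i : ℕ) < 10 then 10 else 14) =
      (n + 1) * 14 + 1 := by
  rw [← Finset.sum_range (fun i => if i = 0 then 9 else if i < 10 then 10 else 14)]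
  obtain ⟨k, rfl⟩ := Nat.exists_eq_add_of_le hn
  have : 6 + k + 4 = 10 + k := by omega
  rw [this, Finset.sum_range_add]
  have h1 : ∑ x ∈ Finset.range 10, (if x = 0 then 9 else if x < 10 then 10 else 14) = 99 := by
    decide
  have h2 : ∑ x ∈ Finset.range k, (if 10 + x = 0 then 9 else if 10 + x < 10 then 10 else 14) =
      14 * k := by
    rw [Finset.sum_congr rfl (g := fun _ => 14)]
    · simp [mul_comm]
    · intro x _
      rw [if_neg (by omega), if_neg (by omega)]
  rw [h1, h2]
  ring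

/-- For every `n ≥ 6` the class `14 H - 9 E₁ - 10 (E₂ + ... + E₁₀) - 14 (E₁₁ + ... + Eₙ₊₄)`
satisfies `(n + 1) d < ∑ mᵢ` (with difference exactly one) and it is effective on the blow-up of
`ℙⁿ` at `n + 4` arbitrary (in particular general) points. -/
theorem result (n : ℕ) (hn : 6 ≤ n) :
    ∃ (d : ℕ) (m : Fin (n + 4) → ℕ),
      (d = 14 ∧ ∀ i : Fin (n + 4),
        m i = if (i : ℕ) = 0 then 9 else if (i : ℕ) < 10 then 10 else 14) ∧
      (n + 1) * d < ∑ i, m i ∧
      ∀ p : Fin (n + 4) → Projectivization ℂ (Fin (n + 1) → ℂ),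
        ∃ F : MvPolynomial (Fin (n + 1)) ℂ, F ≠ 0 ∧ F.IsHomogeneous d ∧
          ∀ i, F ∈ (MvPolynomial.vanishingIdeal ℂ {(p i).rep}) ^ (m i) := by
  refine ⟨14, fun i => if (i : ℕ) = 0 then 9 else if (i : ℕ) < 10 then 10 else 14,
    ⟨rfl, fun _ => rfl⟩, ?_, ?_⟩
  · rw [sum_mult n hn]; omega
  · intro p
    obtain ⟨F, h0, hh, hF⟩ := stepC (k := ℂ) cert n hn (fun i => (p i).rep)
    exact ⟨F, h0, hh, fun i => hF i⟩

end Pool.Agent.Results.MP_71de02_ag.PositivePart
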